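import Mathlib

/-!
# Filters without the Galvin property on every regular cardinal, in ZFC

Let `κ` be a regular infinite cardinal and let `G` be a `κ`-complete filter on `κ` for which there
are `κ⁺` positive sets `B i` whose pairwise intersections are null (the dual ideal is not
`κ⁺`-saturated). The sets whose complement is covered, modulo `G`, by fewer than `κ` of the `B i`
form a proper `κ`-complete filter `F ⊇ G`, and the complements of the `B i` show that `F` does not
have the Galvin property. The filter of the sets with complement of size less than `κ` is such a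
`G`: the `B i` are the graphs of `κ⁺` functions from `κ` to `κ` any two of which agree at fewer than
`κ` points.
-/

set_option autoImplicit false

open Cardinal Order Set

universe u

namespace Pool.Agent.Results.MP_45cf3b_lc.NonGalvinFilter

/-- The filter `F` is `κ`-complete: the intersection of any nonempty family of fewer than `κ` of its
members is a member. -/
def Complete {W : Type u} (κ : Cardinal.{u}) (F : Filter W) : Prop :=
  ∀ 𝒜 : Set (Set W), (∀ X ∈ 𝒜, X ∈ F) → 𝒜.Nonempty → #𝒜 < κ → ⋂₀ 𝒜 ∈ F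

/-- The filter `F` has the Galvin property (at `κ`): among any `κ⁺` members there are `κ` whose
intersection is a member. -/
def Galvin {W : Type u} (κ : Cardinal.{u}) (F : Filter W) : Prop :=
  ∀ A : (succ κ).ord.ToType → Set W, (∀ i, A i ∈ F) →
    ∃ I : Set (succ κ).ord.ToType, #I = κ ∧ (⋂ i ∈ I, A i) ∈ F

/-- There are `κ⁺` sets that are positive for `G` and whose pairwise intersections are null, that is,
the ideal dual to `G` is not `κ⁺`-saturated. -/
def NotSaturated {W : Type u} (κ : Cardinal.{u}) (G : Filter W) : Prop :=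
  ∃ B : (succ κ).ord.ToType → Set W, (∀ i, (B i)ᶜ ∉ G) ∧ ∀ i j, i ≠ j → (B i ∩ B j)ᶜ ∈ G

section proof

variable {κ : Cardinal.{u}} {W : Type u} {Idx : Type u}

theorem complete_iInter (hκ : ℵ₀ ≤ κ) {G : Filter W} (hG : Complete κ G) {J : Set Idx}
    (hJ : #J < κ) {X : Idx → Set W} (hX : ∀ j ∈ J, X j ∈ G) : (⋂ j ∈ J, X j) ∈ G := by
  rcases J.eq_empty_or_nonempty with rfl | hne
  · simp
  · have h1 : (⋂ j ∈ J, X j) = ⋂₀ (X '' J) := by simp
    rw [h1]
    refine hG _ ?_ (hne.image X) (mk_image_le.trans_lt hJ)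
    rintro _ ⟨j, hj, rfl⟩
    exact hX j hj

/-- The filter of the sets whose complement is covered, modulo `G`, by fewer than `κ` of the sets
`B i`. -/
def extFilter (hκ : ℵ₀ ≤ κ) (G : Filter W) (B : Idx → Set W) : Filter W where
  sets := {X | ∃ J : Set Idx, #J < κ ∧ X ∪ (⋃ j ∈ J, B j) ∈ G}
  univ_sets := ⟨∅, by simpa using lt_of_lt_of_le aleph0_pos hκ, by simp⟩
  sets_of_superset := by
    rintro X Y ⟨J, hJ, h⟩ hXY
    exact ⟨J, hJ, Filter.mem_of_superset h (union_subset_union_left _ hXY)⟩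
  inter_sets := by
    rintro X Y ⟨J, hJ, h⟩ ⟨K, hK, h'⟩
    refine ⟨J ∪ K, (mk_union_le J K).trans_lt (add_lt_of_lt hκ hJ hK), ?_⟩
    refine Filter.mem_of_superset (Filter.inter_mem h h') ?_
    rintro w ⟨h1, h2⟩
    rcases h1 with h1 | h1
    · rcases h2 with h2 | h2
      · exact Or.inl ⟨h1, h2⟩
      · refine Or.inr ?_
        rw [mem_iUnion₂] at h2 ⊢
        obtain ⟨j, hj, hw⟩ := h2
        exact ⟨j, Or.inr hj, hw⟩
    · refine Or.inr ?_
      rw [mem_iUnion₂] at h1 ⊢
      obtain ⟨j, hj, hw⟩ := h1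
      exact ⟨j, Or.inl hj, hw⟩

theorem mem_ext {hκ : ℵ₀ ≤ κ} {G : Filter W} {B : Idx → Set W} {X : Set W} :
    X ∈ extFilter hκ G B ↔ ∃ J : Set Idx, #J < κ ∧ X ∪ (⋃ j ∈ J, B j) ∈ G := Iff.rfl

theorem ext_complete (hκ : κ.IsRegular) {G : Filter W} (hG : Complete κ G) (B : Idx → Set W) :
    Complete κ (extFilter hκ.aleph0_le G B) := by
  intro 𝒜 h𝒜 hne hcard
  choose! J hJ hJG using h𝒜
  refine ⟨⋃ X ∈ 𝒜, J X, ?_, ?_⟩
  · exact (card_biUnion_lt_iff_forall_of_isRegular hκ hcard).2 hJ
  · have h1 := complete_iInter hκ.aleph0_le hG hcard hJG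
    refine Filter.mem_of_superset h1 ?_
    intro w hw
    rw [mem_iInter₂] at hw
    by_cases h : ∀ X ∈ 𝒜, w ∈ X
    · exact Or.inl h
    · push Not at h
      obtain ⟨X, hX, hwX⟩ := h
      rcases hw X hX with h2 | h2
      · exact absurd h2 hwX
      · refine Or.inr ?_
        rw [mem_iUnion₂] at h2 ⊢
        obtain ⟨j, hj, hwj⟩ := h2
        exact ⟨j, mem_iUnion₂.2 ⟨X, hX, hj⟩, hwj⟩

/-- a set `B i` is not covered, modulo `G`, by fewer than `κ` of the others -/
theorem not_cover (hκ : κ.IsRegular) {G : Filter W} (hG : Complete κ G) {B : Idx → Set W}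
    (h1 : ∀ i, (B i)ᶜ ∉ G) (h2 : ∀ i j, i ≠ j → (B i ∩ B j)ᶜ ∈ G) {J : Set Idx} (hJ : #J < κ)
    {i : Idx} (hi : i ∉ J) : (B i)ᶜ ∪ (⋃ j ∈ J, B j) ∉ G := by
  intro h
  have h3 : (⋂ j ∈ J, (B i ∩ B j)ᶜ) ∈ G :=
    complete_iInter hκ.aleph0_le hG hJ fun j hj => h2 i j fun e => hi (e ▸ hj)
  refine h1 i (Filter.mem_of_superset (Filter.inter_mem h h3) ?_)
  rintro w ⟨h4 | h4, h5⟩
  · exact h4
  · intro hw
    rw [mem_iUnion₂] at h4
    obtain ⟨j, hj, hwj⟩ := h4
    rw [mem_iInter₂] at h5
    exact h5 j hj ⟨hw, hwj⟩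

theorem exists_ext (hκ : κ.IsRegular) {G : Filter W} (hG : Complete κ G)
    (hS : NotSaturated κ G) : ∃ F : Filter W, F ≤ G ∧ F.NeBot ∧ Complete κ F ∧ ¬ Galvin κ F := by
  obtain ⟨B, h1, h2⟩ := hS
  have hIdx : #(succ κ).ord.ToType = succ κ := mk_ord_toType _
  have hout : ∀ J : Set (succ κ).ord.ToType, #J < κ → ∃ i, i ∉ J := by
    intro J hJ
    by_contra h
    push Not at h
    have h3 : J = Set.univ := eq_univ_of_forall h
    rw [h3, mk_univ, hIdx] at hJ
    exact absurd (hJ.trans (lt_succ κ)) (lt_irrefl _)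
  refine ⟨extFilter hκ.aleph0_le G B, ?_, ?_, ext_complete hκ hG B, ?_⟩
  · intro X hX
    exact ⟨∅, by simpa using lt_of_lt_of_le aleph0_pos hκ.aleph0_le, by simpa using hX⟩
  · refine ⟨fun h => ?_⟩
    have h3 : (∅ : Set W) ∈ extFilter hκ.aleph0_le G B := by rw [h]; trivial
    obtain ⟨J, hJ, h4⟩ := h3
    obtain ⟨i, hi⟩ := hout J hJ
    refine not_cover hκ hG h1 h2 hJ hi (Filter.mem_of_superset h4 ?_)
    rw [empty_union]
    exact subset_union_right
  · intro hGal
    obtain ⟨I, hI, h3⟩ := hGal (fun i => (B i)ᶜ) fun i => by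
      refine ⟨{i}, ?_, ?_⟩
      · rw [mk_singleton]
        exact lt_of_lt_of_le one_lt_aleph0 hκ.aleph0_le
      · simp
    obtain ⟨J, hJ, h4⟩ := h3
    obtain ⟨i, hi, hiJ⟩ : ∃ i ∈ I, i ∉ J := by
      by_contra h
      push Not at h
      have h5 := mk_le_mk_of_subset (show I ⊆ J from h)
      rw [hI] at h5
      exact absurd (h5.trans_lt hJ) (lt_irrefl _)
    refine not_cover hκ hG h1 h2 hJ hiJ (Filter.mem_of_superset h4 ?_)
    refine union_subset_union_left _ ?_
    exact biInter_subset_of_mem hi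

/-- the functions from `κ` to `κ` in `M` agree pairwise at fewer than `κ` points -/
def EvDiff (κ : Cardinal.{u}) (M : Set (W → W)) : Prop :=
  ∀ f ∈ M, ∀ g ∈ M, f ≠ g → #{a | f a = g a} < κ

theorem exists_family (κ : Cardinal.{u}) (hκ : ℵ₀ ≤ κ) :
    ∃ M : Set (κ.ord.ToType → κ.ord.ToType), EvDiff κ M ∧ κ < #M := by
  obtain ⟨M, hM⟩ := zorn_subset {M : Set (κ.ord.ToType → κ.ord.ToType) | EvDiff κ M} (by
    intro c hc hch
    refine ⟨⋃₀ c, ?_, fun s hs => subset_sUnion_of_mem hs⟩
    rintro f ⟨s, hs, hf⟩ g ⟨t, ht, hg⟩ hfg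
    rcases hch.total hs ht with h | h
    · exact hc ht f (h hf) g hg hfg
    · exact hc hs f hf g (h hg) hfg)
  refine ⟨M, hM.prop, ?_⟩
  by_contra hcard
  rw [not_lt] at hcard
  have hW : #κ.ord.ToType = κ := mk_ord_toType _
  have hcard2 : #M ≤ #κ.ord.ToType := hcard.trans hW.ge
  obtain ⟨e⟩ := hcard2
  -- a value at `a` that is not taken by the members of `M` enumerated before `a`
  have hfree : ∀ a : κ.ord.ToType, ∃ b, ∀ f : M, e f < a →
      (f : κ.ord.ToType → κ.ord.ToType) a ≠ b := by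
    intro a
    by_contra h
    push Not at h
    have h1 : ∀ b : κ.ord.ToType, ∃ c : Iio a, ∃ f : M, e f = c ∧
        (f : κ.ord.ToType → κ.ord.ToType) a = b := by
      intro b
      obtain ⟨f, hf, hb⟩ := h b
      exact ⟨⟨e f, hf⟩, f, rfl, hb⟩
    choose c f hc hf using h1
    have hinj : Function.Injective c := by
      intro b b' hbb
      have h2 : e (f b) = e (f b') := by rw [hc, hc, hbb]
      rw [← hf b, ← hf b', e.injective h2]
    have h3 := mk_le_of_injective hinj
    rw [hW] at h3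
    exact absurd (h3.trans_lt (mk_Iio_toType_ord_lt a)) (lt_irrefl _)
  choose g hg using hfree
  have hIic : ∀ a : κ.ord.ToType, #(Iic a) < κ := by
    intro a
    rw [← Iio_insert]
    refine (mk_insert_le).trans_lt ?_
    exact add_lt_of_lt hκ (mk_Iio_toType_ord_lt a) (lt_of_lt_of_le one_lt_aleph0 hκ)
  have hsmall : ∀ f ∈ M, #{a | f a = g a} < κ := by
    intro f hf
    refine (mk_le_mk_of_subset ?_).trans_lt (hIic (e ⟨f, hf⟩))
    intro a ha
    rw [mem_Iic]
    by_contra h
    exact hg a ⟨f, hf⟩ (not_le.1 h) ha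
  have hgM : g ∉ M := by
    intro h
    have h1 := hsmall g h
    have h2 : {a | g a = g a} = Set.univ := by simp
    rw [h2, mk_univ, hW] at h1
    exact lt_irrefl _ h1
  have hnew : EvDiff κ (insert g M) := by
    rintro f (rfl | hf) f' (rfl | hf') hne
    · exact absurd rfl hne
    · have h1 := hsmall f' hf'
      have h2 : {a | f a = f' a} = {a | f' a = f a} := by
        ext a
        exact eq_comm
      rw [h2]
      exact h1
    · exact hsmall f hf
    · exact hM.prop f hf f' hf' hne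
  exact hgM (hM.le_of_ge hnew (subset_insert g M) (mem_insert g M))

/-- the filter of the sets whose complement has size less than `κ` -/
def large (W : Type u) (hκ : ℵ₀ ≤ κ) : Filter W where
  sets := {X | #(Xᶜ : Set W) < κ}
  univ_sets := by simpa using lt_of_lt_of_le aleph0_pos hκ
  sets_of_superset := by
    intro X Y hX hXY
    exact (mk_le_mk_of_subset (compl_subset_compl.2 hXY)).trans_lt hX
  inter_sets := by
    intro X Y hX hY
    show #((X ∩ Y)ᶜ : Set W) < κ
    rw [compl_inter]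
    exact (mk_union_le _ _).trans_lt (add_lt_of_lt hκ hX hY)

theorem large_complete (W : Type u) (hκ : κ.IsRegular) : Complete κ (large W hκ.aleph0_le) := by
  intro 𝒜 h𝒜 _ hcard
  show #((⋂₀ 𝒜)ᶜ : Set W) < κ
  rw [compl_sInter, sUnion_image]
  exact (card_biUnion_lt_iff_forall_of_isRegular hκ hcard).2 fun X hX => h𝒜 X hX

theorem large_notSaturated (hκ : ℵ₀ ≤ κ) : NotSaturated κ (large κ.ord.ToType hκ) := by
  obtain ⟨M, hM, hcard⟩ := exists_family κ hκ
  have hW : #κ.ord.ToType = κ := mk_ord_toType _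
  have h1 : #(succ κ).ord.ToType ≤ #M := by
    rw [mk_ord_toType]
    exact succ_le_of_lt hcard
  obtain ⟨φ⟩ := h1
  have h2 : #(κ.ord.ToType × κ.ord.ToType) = #κ.ord.ToType := by
    rw [mk_prod, lift_id, hW, mul_eq_self hκ]
  obtain ⟨π⟩ := Cardinal.eq.1 h2
  let B : (succ κ).ord.ToType → Set κ.ord.ToType := fun i =>
    range fun a => π (a, (φ i : κ.ord.ToType → κ.ord.ToType) a)
  refine ⟨B, fun i hi => ?_, fun i j hij => ?_⟩
  · have h3 : #((B i)ᶜᶜ : Set κ.ord.ToType) < κ := hi
    rw [compl_compl, mk_range_eq _ (fun a b hab => by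
      have := π.injective hab
      exact congrArg Prod.fst this), hW] at h3
    exact lt_irrefl _ h3
  · show #((B i ∩ B j)ᶜᶜ : Set κ.ord.ToType) < κ
    rw [compl_compl]
    have h3 : B i ∩ B j ⊆ (fun a => π (a, (φ i : κ.ord.ToType → κ.ord.ToType) a)) ''
        {a | (φ i : κ.ord.ToType → κ.ord.ToType) a = (φ j : κ.ord.ToType → κ.ord.ToType) a} := by
      rintro _ ⟨⟨a, rfl⟩, ⟨b, hb⟩⟩
      have h4 := π.injective hb
      have h5 : b = a := congrArg Prod.fst h4
      subst h5
      exact ⟨b, (congrArg Prod.snd h4).symm, rfl⟩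
    refine ((mk_le_mk_of_subset h3).trans mk_image_le).trans_lt ?_
    refine hM _ (φ i).2 _ (φ j).2 fun h => hij ?_
    exact φ.injective (Subtype.ext h)

end proof

/-- **Filters without the Galvin property.** For every regular infinite cardinal `κ` there is a
proper `κ`-complete filter on `κ` without the Galvin property, which contains all the sets whose
complement has size less than `κ`. -/
theorem result (κ : Cardinal.{u}) (hκ : κ.IsRegular) :
    ∃ F : Filter κ.ord.ToType, F.NeBot ∧ Complete κ F ∧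
      (∀ X : Set κ.ord.ToType, #(Xᶜ : Set κ.ord.ToType) < κ → X ∈ F) ∧ ¬ Galvin κ F := by
  obtain ⟨F, h1, h2, h3, h4⟩ :=
    exists_ext hκ (large_complete _ hκ) (large_notSaturated hκ.aleph0_le)
  exact ⟨F, h2, h3, fun X hX => h1 hX, h4⟩

end Pool.Agent.Results.MP_45cf3b_lc.NonGalvinFilter
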